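import Pool.Agent.Lib.H63F.D

/-!
# H56Z, file X0: the average of all trees with prescribed degrees

`X g N` is the weight `(g a + g b) / N` on the pair `ab`. For `g = d - 1`, `N = n - 2` it is the average of all
trees with the degrees `d`. `cutw_X`: its cuts. `tree_demand`: Theorem G (`limit_c`) applied to it.
-/

set_option autoImplicit false
set_option linter.unusedSectionVars false

namespace H56Z

open Finset H98P H63F

variable {V : Type*} [Fintype V] [DecidableEq V]

theorem px_nonneg (e : Sym2 V) (S : Finset V) : 0 ≤ px e S := by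
  unfold px
  split_ifs <;> norm_num

theorem px_zero {a b : V} {S : Finset V} (h : a ∈ S ↔ b ∈ S) : px s(a, b) S = 0 := by
  unfold px
  rw [if_neg]
  rintro ⟨u, hu, v, hv, he⟩
  rcases Sym2.eq_iff.1 he with ⟨h1, h2⟩ | ⟨h1, h2⟩
  · subst h1; subst h2; exact hv (h.1 hu)
  · subst h1; subst h2; exact hv (h.2 hu)

theorem px_one {a b : V} {S : Finset V} (ha : a ∈ S) (hb : b ∉ S) : px s(a, b) S = 1 := by
  unfold px
  rw [if_pos ⟨a, ha, b, hb, rfl⟩]

/-- The cut as a sum over ordered pairs. -/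
theorem cutw_pairs (y : Sym2 V → ℝ) (S : Finset V) :
    cutw y S = ∑ a ∈ S, ∑ b ∈ univ \ S, y s(a, b) := by
  have h1 : ∑ a ∈ S, ∑ b ∈ univ \ S, y s(a, b) = ∑ p ∈ S ×ˢ (univ \ S), y s(p.1, p.2) := by
    rw [sum_product]
  have h2 : ∑ p ∈ S ×ˢ (univ \ S), y s(p.1, p.2) =
      ∑ e ∈ (S ×ˢ (univ \ S)).image (fun p : V × V => s(p.1, p.2)), y e := by
    rw [sum_image]
    rintro ⟨a, b⟩ h3 ⟨a', b'⟩ h4 h5
    have h6 := mem_product.1 (mem_coe.1 h3)
    have h7 := mem_product.1 (mem_coe.1 h4)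
    simp only [mem_sdiff] at h6 h7
    rcases Sym2.eq_iff.1 h5 with ⟨h8, h9⟩ | ⟨h8, h9⟩
    · simp only at h8 h9
      rw [h8, h9]
    · simp only at h8 h9
      exact absurd (h8 ▸ h6.1) h7.2.2
  rw [h1, h2]
  unfold cutw
  rw [← sum_subset (subset_univ ((S ×ˢ (univ \ S)).image (fun p : V × V => s(p.1, p.2))))]
  · refine sum_congr rfl fun e he => ?_
    obtain ⟨p, hp, rfl⟩ := mem_image.1 he
    rw [mem_product, mem_sdiff] at hp
    rw [px_one hp.1 hp.2.2, mul_one]
  · intro e _ he
    have : px e S = 0 := by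
      unfold px
      rw [if_neg]
      rintro ⟨a, ha, b, hb, rfl⟩
      exact he (mem_image.2 ⟨(a, b), mem_product.2 ⟨ha, mem_sdiff.2 ⟨mem_univ _, hb⟩⟩, rfl⟩)
    rw [this, mul_zero]

/-- The sum of the degrees is twice the total weight. -/
theorem sum_vert (y : Sym2 V → ℝ) (hl : ∀ v, y s(v, v) = 0) : ∑ v, cutw y {v} = 2 * ∑ e, y e := by
  unfold cutw
  rw [sum_comm, mul_sum]
  refine sum_congr rfl fun e _ => ?_
  rw [← mul_sum]
  induction e using Sym2.ind with
  | _ a b =>
    by_cases hab : a = b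
    · subst hab
      rw [hl]
      ring
    · have h : ∑ v, px s(a, b) ({v} : Finset V) = 2 := by
        rw [← sum_subset (subset_univ ({a, b} : Finset V))]
        · rw [sum_pair hab, px_one (mem_singleton_self a) (by simpa using Ne.symm hab)]
          rw [Sym2.eq_swap, px_one (mem_singleton_self b) (by simpa using hab)]
          norm_num
        · intro v _ hv
          rw [mem_insert, mem_singleton] at hv
          rw [not_or] at hv
          refine px_zero ?_
          rw [mem_singleton, mem_singleton]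
          exact ⟨fun h => absurd h.symm hv.1, fun h => absurd h.symm hv.2⟩
      rw [h]
      ring

/-- The weight `(g a + g b) / N` on the pairs. -/
noncomputable def X (g : V → ℝ) (N : ℝ) : Sym2 V → ℝ :=
  Sym2.lift ⟨fun a b => if a = b then 0 else (g a + g b) / N, fun a b => by
    by_cases h : a = b
    · rw [h]
    · have h' : b ≠ a := Ne.symm h
      simp only [h, h', if_false, add_comm]⟩

theorem X_mk (g : V → ℝ) (N : ℝ) (a b : V) : X g N s(a, b) = if a = b then 0 else (g a + g b) / N := rfl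

theorem X_nonneg {g : V → ℝ} {N : ℝ} (hg : ∀ v, 0 ≤ g v) (hN : 0 ≤ N) (e : Sym2 V) : 0 ≤ X g N e := by
  induction e using Sym2.ind with
  | _ a b =>
    rw [X_mk]
    split_ifs
    · exact le_rfl
    · exact div_nonneg (add_nonneg (hg a) (hg b)) hN

theorem cutw_X (g : V → ℝ) (N : ℝ) (S : Finset V) :
    cutw (X g N) S = (((univ \ S).card : ℝ) * ∑ v ∈ S, g v + (S.card : ℝ) * ∑ v ∈ univ \ S, g v) / N := by
  rw [cutw_pairs]
  have h1 : ∀ a ∈ S, ∑ b ∈ univ \ S, X g N s(a, b) =
      (((univ \ S).card : ℝ) * g a + ∑ b ∈ univ \ S, g b) / N := by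
    intro a ha
    rw [show ((univ \ S).card : ℝ) * g a = ∑ _b ∈ univ \ S, g a by rw [sum_const, nsmul_eq_mul],
      ← sum_add_distrib, sum_div]
    refine sum_congr rfl fun b hb => ?_
    rw [X_mk, if_neg]
    rintro rfl
    exact (mem_sdiff.1 hb).2 ha
  rw [sum_congr rfl h1, ← sum_div, sum_add_distrib, ← mul_sum, sum_const, nsmul_eq_mul]

theorem card_compl' (S : Finset V) : ((univ \ S).card : ℝ) = (Fintype.card V : ℝ) - S.card := by
  have h := card_sdiff_add_card_eq_card (subset_univ S)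
  rw [card_univ] at h
  have h2 : ((univ \ S).card : ℝ) + (S.card : ℝ) = (Fintype.card V : ℝ) := by exact_mod_cast h
  linarith

theorem sum_compl' (S : Finset V) (g : V → ℝ) : ∑ v ∈ univ \ S, g v = ∑ v, g v - ∑ v ∈ S, g v := by
  have h := sum_sdiff (subset_univ S) (f := g)
  linarith

/-- The demand `d(S) - 2 |S| + 2`, scaled. -/
noncomputable def rd (d : V → ℕ) (S : Finset V) : ℝ :=
  ((∑ v ∈ S, (d v : ℝ)) - 2 * S.card + 2) / ((Fintype.card V : ℝ) - 1)

theorem rd_unc (d : V → ℕ) (S T : Finset V) :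
    rd d S + rd d T ≤ rd d (S ∩ T) + rd d (S ∪ T) := by
  unfold rd
  have h1 := sum_union_inter (s₁ := S) (s₂ := T) (f := fun v => (d v : ℝ))
  have h2 : ((S ∪ T).card : ℝ) + ((S ∩ T).card : ℝ) = (S.card : ℝ) + (T.card : ℝ) := by
    exact_mod_cast card_union_add_card_inter S T
  rw [← add_div, ← add_div]
  refine le_of_eq ?_
  congr 1
  linarith

/-- The starting weights: the average of all trees with the degrees `d`, scaled to total `1`. -/
theorem exists_x0 (hV : 2 ≤ Fintype.card V) {d : V → ℕ} (hd : ∀ v, 1 ≤ d v)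
    (hs : ∑ v, d v + 2 = 2 * Fintype.card V) : ∃ x0 : Sym2 V → ℝ, (∀ e, 0 ≤ x0 e) ∧ ∑ e, x0 e = 1 ∧
      (∀ v, x0 s(v, v) = 0) ∧ ∀ S : Finset V, S.Nonempty → S ≠ univ → rd d S ≤ cutw x0 S := by
  have hsr : ∑ v, (d v : ℝ) = 2 * (Fintype.card V : ℝ) - 2 := by
    have : ((∑ v, d v : ℕ) : ℝ) + 2 = 2 * (Fintype.card V : ℝ) := by exact_mod_cast hs
    push_cast at this
    linarith
  have hgn : ∀ v, (0 : ℝ) ≤ (d v : ℝ) - 1 := fun v => by
    have : (1 : ℝ) ≤ (d v : ℝ) := by exact_mod_cast hd v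
    linarith
  have hgs : ∑ v, ((d v : ℝ) - 1) = (Fintype.card V : ℝ) - 2 := by
    rw [sum_sub_distrib, hsr, sum_const, card_univ, nsmul_eq_mul]
    ring
  have hDle : ∀ S : Finset V, ∑ v ∈ S, ((d v : ℝ) - 1) ≤ (Fintype.card V : ℝ) - 2 := fun S => by
    rw [← hgs]
    exact sum_le_sum_of_subset_of_nonneg (subset_univ S) fun v _ _ => hgn v
  have hdS : ∀ S : Finset V, ∑ v ∈ S, (d v : ℝ) = ∑ v ∈ S, ((d v : ℝ) - 1) + S.card := fun S => by
    rw [sum_sub_distrib, sum_const, nsmul_eq_mul]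
    ring
  rcases Nat.lt_or_ge 2 (Fintype.card V) with h3 | h3
  · -- at least three points
    have hn : (3 : ℝ) ≤ (Fintype.card V : ℝ) := by exact_mod_cast h3
    have hN1 : (0 : ℝ) < (Fintype.card V : ℝ) - 1 := by linarith
    have hN2 : (0 : ℝ) < (Fintype.card V : ℝ) - 2 := by linarith
    have hN : (0 : ℝ) < ((Fintype.card V : ℝ) - 2) * ((Fintype.card V : ℝ) - 1) := mul_pos hN2 hN1
    have hcut : ∀ S : Finset V, cutw (X (fun v => (d v : ℝ) - 1)
        (((Fintype.card V : ℝ) - 2) * ((Fintype.card V : ℝ) - 1))) S =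
        (((Fintype.card V : ℝ) - S.card) * ∑ v ∈ S, ((d v : ℝ) - 1) + (S.card : ℝ) *
          ((Fintype.card V : ℝ) - 2 - ∑ v ∈ S, ((d v : ℝ) - 1))) /
          (((Fintype.card V : ℝ) - 2) * ((Fintype.card V : ℝ) - 1)) := fun S => by
      rw [cutw_X, card_compl', sum_compl', hgs]
    refine ⟨X (fun v => (d v : ℝ) - 1) (((Fintype.card V : ℝ) - 2) * ((Fintype.card V : ℝ) - 1)),
      fun e => X_nonneg hgn hN.le e, ?_, fun v => if_pos rfl, ?_⟩
    · have h4 := sum_vert (X (fun v => (d v : ℝ) - 1)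
        (((Fintype.card V : ℝ) - 2) * ((Fintype.card V : ℝ) - 1))) (fun v => if_pos rfl)
      have h5 : ∀ v ∈ (univ : Finset V), cutw (X (fun v => (d v : ℝ) - 1)
          (((Fintype.card V : ℝ) - 2) * ((Fintype.card V : ℝ) - 1))) {v} =
          (d v : ℝ) / ((Fintype.card V : ℝ) - 1) := fun v _ => by
        rw [hcut, sum_singleton, card_singleton]
        field_simp
        push_cast
        ring
      rw [sum_congr rfl h5, ← sum_div, hsr] at h4
      have h6 : (2 * (Fintype.card V : ℝ) - 2) / ((Fintype.card V : ℝ) - 1) = 2 := by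
        rw [div_eq_iff hN1.ne']
        ring
      rw [h6] at h4
      linarith
    · intro S hS _
      have hs1 : (1 : ℝ) ≤ (S.card : ℝ) := by exact_mod_cast card_pos.2 hS
      rw [hcut, rd, hdS, div_le_div_iff₀ hN1 hN]
      have h7 := hDle S
      have key : 0 ≤ (S.card - 1 : ℝ) * ((Fintype.card V : ℝ) - 2 - ∑ v ∈ S, ((d v : ℝ) - 1)) :=
        mul_nonneg (by linarith) (by linarith)
      nlinarith [mul_nonneg hN1.le key]
  · -- two points
    have hn : Fintype.card V = 2 := le_antisymm h3 hV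
    have hnr : (Fintype.card V : ℝ) = 2 := by exact_mod_cast hn
    have hcut : ∀ S : Finset V, cutw (X (fun _ : V => (1 : ℝ) / 2) 1) S = (2 - S.card) * S.card := fun S => by
      rw [cutw_X, card_compl', sum_compl', sum_const, sum_const, card_univ, nsmul_eq_mul, nsmul_eq_mul, hnr]
      ring
    refine ⟨X (fun _ : V => (1 : ℝ) / 2) 1, fun e => X_nonneg (fun _ => by norm_num) zero_le_one e, ?_,
      fun v => if_pos rfl, ?_⟩
    · have h4 := sum_vert (X (fun _ : V => (1 : ℝ) / 2) 1) (fun v => if_pos rfl)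
      have h5 : ∀ v ∈ (univ : Finset V), cutw (X (fun _ : V => (1 : ℝ) / 2) 1) {v} = 1 := fun v _ => by
        rw [hcut, card_singleton]
        norm_num
      rw [sum_congr rfl h5, sum_const, card_univ, nsmul_eq_mul, hnr] at h4
      linarith
    · intro S hS hSu
      have hs1 : S.card = 1 := by
        have h8 := card_lt_card (ssubset_univ_iff.2 hSu)
        rw [card_univ, hn] at h8
        have h9 := card_pos.2 hS
        omega
      have h7 := hDle S
      rw [hcut, rd, hdS, hs1, hnr]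
      rw [hnr] at h7
      norm_num
      norm_num at h7
      linarith

end H56Z
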