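import Pool.Agent.Lib.H56Z.Y
import Pool.Agent.Lib.H59T.Win

/-!
# H56Z, file Main: plane spanning trees with degrees at most one above a given tree degree sequence

For all `d ≥ 1` with sum `2n - 2` and every vertex `v0` there is a plane spanning tree with `deg v0 ≤ d v0` and
`deg v ≤ d v + 1` for all `v`. Input `hw`: the conclusion of `H63F.limit_c` for `r = rd d` and the weights of
`exists_x0` (plane weights of total `1` with `rd d S ≤ x(δ S)`).
-/

set_option autoImplicit false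
set_option linter.unusedSectionVars false

namespace H56Z

open Finset H98P H63F

variable {V : Type*} [Fintype V] [DecidableEq V]

theorem connected_of {G : Finset (Sym2 V)} [Nonempty V]
    (h : ∀ S : Finset V, S.Nonempty → S ≠ univ → ∃ a ∈ S, ∃ b, b ∉ S ∧ s(a, b) ∈ G) :
    (SimpleGraph.fromEdgeSet (G : Set (Sym2 V))).Connected := by
  classical
  refine SimpleGraph.connected_iff _ |>.2 ⟨fun u v => ?_, inferInstance⟩
  by_contra hv
  obtain ⟨a, ha, b, hb, he⟩ := h (univ.filter fun w =>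
    (SimpleGraph.fromEdgeSet (G : Set (Sym2 V))).Reachable u w) ⟨u, mem_filter.2 ⟨mem_univ _,
      SimpleGraph.Reachable.refl u⟩⟩ (fun h1 => hv (mem_filter.1 (h1 ▸ mem_univ v)).2)
  rw [mem_filter] at ha hb
  refine hb ⟨mem_univ _, ha.2.trans (SimpleGraph.Adj.reachable ?_)⟩
  rw [SimpleGraph.fromEdgeSet_adj]
  refine ⟨mem_coe.2 he, fun h1 => hb ⟨mem_univ _, h1 ▸ ha.2⟩⟩

/-- THE THEOREM for one crossing relation. -/
theorem tree_of_weights (hV : 2 ≤ Fintype.card V) {cross : Sym2 V → Sym2 V → Prop} {d : V → ℕ}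
    (hs : ∑ v, d v + 2 = 2 * Fintype.card V)
    (hw : ∃ G : Finset (Sym2 V), Plane cross G ∧ (∀ v, s(v, v) ∉ G) ∧ ∃ x ∈ Sx G,
      ∀ S : Finset V, S.Nonempty → S ≠ univ → rd d S ≤ cutw x S) (v0 : V) :
    ∃ T : SimpleGraph V, T.IsTree ∧ (∀ e ∈ T.edgeSet, ∀ f ∈ T.edgeSet, ¬ cross e f) ∧
      (T.neighborSet v0).ncard ≤ d v0 ∧ ∀ v, (T.neighborSet v).ncard ≤ d v + 1 := by
  obtain ⟨G, hG, hl, x, hx, hc⟩ := hw
  obtain ⟨y, hy⟩ := td_of_limit hV hs hl hx hc
  have : Nonempty V := ⟨v0⟩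
  have hcon := connected_of (G := G) (fun S hS hSu => conn hy hS hSu)
  obtain ⟨T, hT, hTt, hTd⟩ := Pool.Agent.Lib.H59T.win_nat _ hcon
    (fun v => if v = v0 then d v else d v + 1) (fun S g hS hg => count_f hy v0 hS (fun u hu v hv he => by
      by_cases huv : u = v
      · rw [huv]
      · exact hg u v hu hv (by rw [SimpleGraph.fromEdgeSet_adj]; exact ⟨mem_coe.2 he, huv⟩)))
  have hsub : ∀ e ∈ T.edgeSet, e ∈ G := fun e he => by
    have h3 := SimpleGraph.edgeSet_mono hT he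
    rw [SimpleGraph.edgeSet_fromEdgeSet] at h3
    exact mem_coe.1 h3.1
  refine ⟨T, hTt, fun e he f hf => hG e (hsub e he) f (hsub f hf), ?_, fun v => ?_⟩
  · have h3 := hTd v0
    rwa [if_pos rfl] at h3
  · have h3 := hTd v
    split_ifs at h3
    · omega
    · exact h3

end H56Z
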