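import Pool.Agent.Lib.H56Z.Y
import Pool.Agent.Lib.H56Z.Main

/-!
# H56Z, file R: the real form of X0, Y, Main

Now `d : V → ℝ`, `1 ≤ d v`, sum `2n - 2`: starting weights, plane weights `y` with degrees exactly `d`,
`y(δ S) ≥ d(S) - 2 |S| + 2`, the bound `c(G - S) ≤ d(S) - |S| + 1`, connectivity and the spanning tree with
degrees at most `⌈d v⌉ + 1`, and at most `⌈d v0⌉` at `v0`.
-/

set_option autoImplicit false
set_option linter.unusedSectionVars false

namespace H56R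

open Finset H98P H63F H56Z

variable {V : Type*} [Fintype V] [DecidableEq V]

/-- The demand `d(S) - 2 |S| + 2`, scaled. -/
noncomputable def rd (d : V → ℝ) (S : Finset V) : ℝ :=
  ((∑ v ∈ S, d v) - 2 * S.card + 2) / ((Fintype.card V : ℝ) - 1)

theorem rd_unc (d : V → ℝ) (S T : Finset V) :
    rd d S + rd d T ≤ rd d (S ∩ T) + rd d (S ∪ T) := by
  unfold rd
  have h1 := sum_union_inter (s₁ := S) (s₂ := T) (f := fun v => d v)
  have h2 : ((S ∪ T).card : ℝ) + ((S ∩ T).card : ℝ) = (S.card : ℝ) + (T.card : ℝ) := by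
    exact_mod_cast card_union_add_card_inter S T
  rw [← add_div, ← add_div]
  refine le_of_eq ?_
  congr 1
  linarith

/-- The starting weights: the average of all trees with the degrees `d`, scaled to total `1`. -/
theorem exists_x0 (hV : 2 ≤ Fintype.card V) {d : V → ℝ} (hd : ∀ v, 1 ≤ d v)
    (hsr : ∑ v, d v = 2 * (Fintype.card V : ℝ) - 2) : ∃ x0 : Sym2 V → ℝ, (∀ e, 0 ≤ x0 e) ∧ ∑ e, x0 e = 1 ∧
      (∀ v, x0 s(v, v) = 0) ∧ ∀ S : Finset V, S.Nonempty → S ≠ univ → rd d S ≤ cutw x0 S := by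
  have hgn : ∀ v, (0 : ℝ) ≤ d v - 1 := fun v => by
    have := hd v
    linarith
  have hgs : ∑ v, (d v - 1) = (Fintype.card V : ℝ) - 2 := by
    rw [sum_sub_distrib, hsr, sum_const, card_univ, nsmul_eq_mul]
    ring
  have hDle : ∀ S : Finset V, ∑ v ∈ S, (d v - 1) ≤ (Fintype.card V : ℝ) - 2 := fun S => by
    rw [← hgs]
    exact sum_le_sum_of_subset_of_nonneg (subset_univ S) fun v _ _ => hgn v
  have hdS : ∀ S : Finset V, ∑ v ∈ S, d v = ∑ v ∈ S, (d v - 1) + S.card := fun S => by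
    rw [sum_sub_distrib, sum_const, nsmul_eq_mul]
    ring
  rcases Nat.lt_or_ge 2 (Fintype.card V) with h3 | h3
  · -- at least three points
    have hn : (3 : ℝ) ≤ (Fintype.card V : ℝ) := by exact_mod_cast h3
    have hN1 : (0 : ℝ) < (Fintype.card V : ℝ) - 1 := by linarith
    have hN2 : (0 : ℝ) < (Fintype.card V : ℝ) - 2 := by linarith
    have hN : (0 : ℝ) < ((Fintype.card V : ℝ) - 2) * ((Fintype.card V : ℝ) - 1) := mul_pos hN2 hN1
    have hcut : ∀ S : Finset V, cutw (X (fun v => d v - 1)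
        (((Fintype.card V : ℝ) - 2) * ((Fintype.card V : ℝ) - 1))) S =
        (((Fintype.card V : ℝ) - S.card) * ∑ v ∈ S, (d v - 1) + (S.card : ℝ) *
          ((Fintype.card V : ℝ) - 2 - ∑ v ∈ S, (d v - 1))) /
          (((Fintype.card V : ℝ) - 2) * ((Fintype.card V : ℝ) - 1)) := fun S => by
      rw [cutw_X, card_compl', sum_compl', hgs]
    refine ⟨X (fun v => d v - 1) (((Fintype.card V : ℝ) - 2) * ((Fintype.card V : ℝ) - 1)),
      fun e => X_nonneg hgn hN.le e, ?_, fun v => if_pos rfl, ?_⟩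
    · have h4 := sum_vert (X (fun v => d v - 1)
        (((Fintype.card V : ℝ) - 2) * ((Fintype.card V : ℝ) - 1))) (fun v => if_pos rfl)
      have h5 : ∀ v ∈ (univ : Finset V), cutw (X (fun v => d v - 1)
          (((Fintype.card V : ℝ) - 2) * ((Fintype.card V : ℝ) - 1))) {v} =
          d v / ((Fintype.card V : ℝ) - 1) := fun v _ => by
        rw [hcut, sum_singleton, card_singleton]
        field_simp
        push_cast
        ring
      rw [sum_congr rfl h5, ← sum_div, hsr] at h4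
      have h6 : (2 * (Fintype.card V : ℝ) - 2) / ((Fintype.card V : ℝ) - 1) = 2 := by
        rw [div_eq_iff hN1.ne']
        ring
      rw [h6] at h4
      linarith
    · intro S hS _
      have hs1 : (1 : ℝ) ≤ (S.card : ℝ) := by exact_mod_cast card_pos.2 hS
      rw [hcut, rd, hdS, div_le_div_iff₀ hN1 hN]
      have h7 := hDle S
      have key : 0 ≤ (S.card - 1 : ℝ) * ((Fintype.card V : ℝ) - 2 - ∑ v ∈ S, (d v - 1)) :=
        mul_nonneg (by linarith) (by linarith)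
      nlinarith [mul_nonneg hN1.le key]
  · -- two points
    have hn : Fintype.card V = 2 := le_antisymm h3 hV
    have hnr : (Fintype.card V : ℝ) = 2 := by exact_mod_cast hn
    have hcut : ∀ S : Finset V, cutw (X (fun _ : V => (1 : ℝ) / 2) 1) S = (2 - S.card) * S.card := fun S => by
      rw [cutw_X, card_compl', sum_compl', sum_const, sum_const, card_univ, nsmul_eq_mul, nsmul_eq_mul, hnr]
      ring
    refine ⟨X (fun _ : V => (1 : ℝ) / 2) 1, fun e => X_nonneg (fun _ => by norm_num) zero_le_one e, ?_,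
      fun v => if_pos rfl, ?_⟩
    · have h4 := sum_vert (X (fun _ : V => (1 : ℝ) / 2) 1) (fun v => if_pos rfl)
      have h5 : ∀ v ∈ (univ : Finset V), cutw (X (fun _ : V => (1 : ℝ) / 2) 1) {v} = 1 := fun v _ => by
        rw [hcut, card_singleton]
        norm_num
      rw [sum_congr rfl h5, sum_const, card_univ, nsmul_eq_mul, hnr] at h4
      linarith
    · intro S hS hSu
      have hs1 : S.card = 1 := by
        have h8 := card_lt_card (ssubset_univ_iff.2 hSu)
        rw [card_univ, hn] at h8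
        have h9 := card_pos.2 hS
        omega
      have h7 := hDle S
      rw [hcut, rd, hdS, hs1, hnr]
      rw [hnr] at h7
      norm_num
      norm_num at h7
      linarith

structure TD (G : Finset (Sym2 V)) (d : V → ℝ) (y : Sym2 V → ℝ) : Prop where
  nonneg : ∀ e, 0 ≤ y e
  supp : ∀ e, e ∉ G → y e = 0
  loop : ∀ v, s(v, v) ∉ G
  vert : ∀ v, cutw y {v} = d v
  cut : ∀ S : Finset V, S.Nonempty → S ≠ univ → (∑ v ∈ S, d v) - 2 * S.card + 2 ≤ cutw y S
  sum : ∑ v, d v = 2 * (Fintype.card V : ℝ) - 2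

theorem td_of_limit (hV : 2 ≤ Fintype.card V) {d : V → ℝ}
    (hsr : ∑ v, d v = 2 * (Fintype.card V : ℝ) - 2) {G : Finset (Sym2 V)} (hl : ∀ v, s(v, v) ∉ G)
    {x : Sym2 V → ℝ} (hx : x ∈ Sx G)
    (hc : ∀ S : Finset V, S.Nonempty → S ≠ univ → rd d S ≤ cutw x S) :
    ∃ y, TD G d y := by
  obtain ⟨h0, h1, h2⟩ := hx
  have hn : (2 : ℝ) ≤ (Fintype.card V : ℝ) := by exact_mod_cast hV
  have hN : (0 : ℝ) < (Fintype.card V : ℝ) - 1 := by linarith
  have hcw : ∀ S : Finset V, cutw (fun e => ((Fintype.card V : ℝ) - 1) * x e) S =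
      ((Fintype.card V : ℝ) - 1) * cutw x S := fun S => by
    unfold cutw
    rw [mul_sum]
    refine sum_congr rfl fun e _ => ?_
    ring
  have hcut : ∀ S : Finset V, S.Nonempty → S ≠ univ → (∑ v ∈ S, d v) - 2 * S.card + 2 ≤
      cutw (fun e => ((Fintype.card V : ℝ) - 1) * x e) S := fun S hS hSu => by
    rw [hcw]
    have h3 := hc S hS hSu
    rw [rd, div_le_iff₀ hN] at h3
    linarith
  have hsing : ∀ v : V, ({v} : Finset V) ≠ univ := fun v h => by
    have h3 := congrArg card h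
    rw [card_singleton, card_univ] at h3
    omega
  have hle : ∀ v ∈ (univ : Finset V), d v ≤
      cutw (fun e => ((Fintype.card V : ℝ) - 1) * x e) {v} := fun v _ => by
    have h3 := hcut {v} (singleton_nonempty v) (hsing v)
    rw [sum_singleton, card_singleton] at h3
    push_cast at h3
    linarith
  have htot : ∑ v, d v = ∑ v, cutw (fun e => ((Fintype.card V : ℝ) - 1) * x e) {v} := by
    rw [sum_vert _ (fun v => by rw [h1 _ (hl v), mul_zero]), ← mul_sum, h2, hsr]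
    ring
  refine ⟨fun e => ((Fintype.card V : ℝ) - 1) * x e, fun e => mul_nonneg hN.le (h0 e), fun e he => ?_,
    hl, fun v => ?_, hcut, hsr⟩
  · show ((Fintype.card V : ℝ) - 1) * x e = 0
    rw [h1 e he, mul_zero]
  · exact ((sum_eq_sum_iff_of_le hle).1 htot v (mem_univ v)).symm

/-- COMPONENTS: `c(G - S) ≤ d(S) - |S| + 1`. -/
theorem count {G : Finset (Sym2 V)} {d : V → ℝ} {y : Sym2 V → ℝ} (h : TD G d y) {S : Finset V}
    (hS : S.Nonempty) {c : V → V} (hc : ∀ u, u ∉ S → ∀ v, v ∉ S → s(u, v) ∈ G → c u = c v) :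
    (((univ \ S).image c).card : ℝ) + (S.card : ℝ) ≤ ∑ v ∈ S, d v + 1 := by
  have h1 : ∑ i ∈ (univ \ S).image c, cutw y (cls S c i) ≤ ∑ v ∈ S, cutw y {v} := by
    unfold cutw
    rw [sum_comm, sum_comm (s := S)]
    exact sum_le_sum (fun e _ => key h.nonneg h.supp h.loop hc _ e)
  have h2 : ∑ i ∈ (univ \ S).image c, ((∑ v ∈ cls S c i, d v) - 2 * (cls S c i).card + 2) ≤
      ∑ i ∈ (univ \ S).image c, cutw y (cls S c i) := by
    apply sum_le_sum
    intro i hi
    obtain ⟨v, hv, rfl⟩ := mem_image.1 hi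
    have hvS : v ∉ S := (mem_sdiff.1 hv).2
    apply h.cut
    · exact ⟨v, mem_cls.2 ⟨hvS, rfl⟩⟩
    · intro heq
      obtain ⟨s, hs⟩ := hS
      have : s ∈ cls S c (c v) := heq ▸ mem_univ s
      exact (mem_cls.1 this).1 hs
  have h3 : ∑ v ∈ S, cutw y {v} = ∑ v ∈ S, d v := sum_congr rfl fun v _ => h.vert v
  have h4 : ∑ i ∈ (univ \ S).image c, ∑ v ∈ cls S c i, d v = ∑ v ∈ univ \ S, d v :=
    sum_fiberwise_of_maps_to (fun v hv => mem_image_of_mem c hv) _
  have h5 : ∑ i ∈ (univ \ S).image c, ((cls S c i).card : ℝ) = ((univ \ S).card : ℝ) := by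
    have h6 : ∑ i ∈ (univ \ S).image c, ∑ v ∈ cls S c i, (1 : ℝ) = ∑ v ∈ univ \ S, (1 : ℝ) :=
      sum_fiberwise_of_maps_to (fun v hv => mem_image_of_mem c hv) _
    simpa using h6
  rw [sum_add_distrib, sum_sub_distrib, h4, ← mul_sum, h5, sum_const, nsmul_eq_mul, sum_compl',
    card_compl', h.sum] at h2
  rw [h3] at h1
  linarith

/-- CONNECTED: some edge of `G` leaves `S`. -/
theorem conn {G : Finset (Sym2 V)} {d : V → ℝ} {y : Sym2 V → ℝ} (h : TD G d y) {S : Finset V}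
    (hS : S.Nonempty) (hSu : S ≠ univ) : ∃ a ∈ S, ∃ b, b ∉ S ∧ s(a, b) ∈ G := by
  by_contra hno
  push Not at hno
  have hpx : ∀ e ∈ G, px e S = 0 := fun e he => by
    unfold px
    rw [if_neg]
    rintro ⟨a, ha, b, hb, rfl⟩
    exact hno a ha b hb he
  have hpx' : ∀ e ∈ G, px e (univ \ S) = 0 := fun e he => by
    unfold px
    rw [if_neg]
    rintro ⟨a, ha, b, hb, rfl⟩
    rw [mem_sdiff] at ha hb
    rw [Sym2.eq_swap] at he
    exact hno b (by by_contra h1; exact hb ⟨mem_univ _, h1⟩) a ha.2 he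
  have hz : cutw y S = 0 := sum_eq_zero fun e _ => by
    by_cases he : e ∈ G
    · rw [hpx e he, mul_zero]
    · rw [h.supp e he, zero_mul]
  have hz' : cutw y (univ \ S) = 0 := sum_eq_zero fun e _ => by
    by_cases he : e ∈ G
    · rw [hpx' e he, mul_zero]
    · rw [h.supp e he, zero_mul]
  have h1 := h.cut S hS hSu
  have h2 := h.cut (univ \ S) (by
    rw [sdiff_nonempty]
    exact fun h3 => hSu (eq_univ_iff_forall.2 fun v => h3 (mem_univ v))) (fun h3 => by
    obtain ⟨v, hv⟩ := hS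
    have h4 : v ∈ univ \ S := by rw [h3]; exact mem_univ v
    exact (mem_sdiff.1 h4).2 hv)
  rw [hz] at h1
  rw [hz', sum_compl', card_compl', h.sum] at h2
  linarith

/-- The hypothesis of the non-uniform theorem of Win. -/
theorem count_f {G : Finset (Sym2 V)} {d : V → ℝ} {y : Sym2 V → ℝ} (h : TD G d y) (v0 : V) {S : Finset V}
    (hS : S.Nonempty) {c : V → V} (hc : ∀ u, u ∉ S → ∀ v, v ∉ S → s(u, v) ∈ G → c u = c v) :
    ((univ \ S).image c).card + 2 * S.card ≤ ∑ v ∈ S, (if v = v0 then ⌈d v⌉₊ else ⌈d v⌉₊ + 1) + 2 := by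
  have h1 := count h hS hc
  have h1' : (((univ \ S).image c).card : ℝ) + (S.card : ℝ) ≤ ((∑ v ∈ S, ⌈d v⌉₊ : ℕ) : ℝ) + 1 := by
    refine h1.trans ?_
    push_cast
    have := sum_le_sum (s := S) fun v _ => Nat.le_ceil (d v)
    linarith
  have h1n : ((univ \ S).image c).card + S.card ≤ ∑ v ∈ S, ⌈d v⌉₊ + 1 := by exact_mod_cast h1'
  have h2 : ∑ v ∈ S, ⌈d v⌉₊ + S.card ≤ ∑ v ∈ S, (if v = v0 then ⌈d v⌉₊ else ⌈d v⌉₊ + 1) + 1 := by
    have h3 : ∑ v ∈ S, ⌈d v⌉₊ + S.card = ∑ v ∈ S, (⌈d v⌉₊ + 1) := by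
      rw [sum_add_distrib, sum_const, smul_eq_mul, mul_one]
    rw [h3]
    by_cases hv : v0 ∈ S
    · rw [← add_sum_erase S _ hv, ← add_sum_erase S (fun v => if v = v0 then ⌈d v⌉₊ else ⌈d v⌉₊ + 1) hv]
      rw [if_pos rfl]
      have h4 : ∑ v ∈ S.erase v0, (if v = v0 then ⌈d v⌉₊ else ⌈d v⌉₊ + 1) =
          ∑ v ∈ S.erase v0, (⌈d v⌉₊ + 1) :=
        sum_congr rfl fun v hv' => if_neg (ne_of_mem_erase hv')
      rw [h4]
      omega
    · have h4 : ∑ v ∈ S, (if v = v0 then ⌈d v⌉₊ else ⌈d v⌉₊ + 1) = ∑ v ∈ S, (⌈d v⌉₊ + 1) :=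
        sum_congr rfl fun v hv' => if_neg (fun h5 : v = v0 => hv (h5 ▸ hv'))
      rw [h4]
      omega
  omega

/-- THE TREE. -/
theorem tree_of_TD {G : Finset (Sym2 V)} {d : V → ℝ} {y : Sym2 V → ℝ} (h : TD G d y) (v0 : V) :
    ∃ T : SimpleGraph V, T ≤ SimpleGraph.fromEdgeSet (G : Set (Sym2 V)) ∧ T.IsTree ∧
      (T.neighborSet v0).ncard ≤ ⌈d v0⌉₊ ∧ ∀ v, (T.neighborSet v).ncard ≤ ⌈d v⌉₊ + 1 := by
  have : Nonempty V := ⟨v0⟩
  have hcon := connected_of (G := G) (fun S hS hSu => conn h hS hSu)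
  obtain ⟨T, hT, hTt, hTd⟩ := Pool.Agent.Lib.H59T.win_nat _ hcon
    (fun v => if v = v0 then ⌈d v⌉₊ else ⌈d v⌉₊ + 1) (fun S g hS hg => count_f h v0 hS (fun u hu v hv he => by
      by_cases huv : u = v
      · rw [huv]
      · exact hg u v hu hv (by rw [SimpleGraph.fromEdgeSet_adj]; exact ⟨mem_coe.2 he, huv⟩)))
  refine ⟨T, hT, hTt, ?_, fun v => ?_⟩
  · have h3 := hTd v0
    rwa [if_pos rfl] at h3
  · have h3 := hTd v
    split_ifs at h3
    · omega
    · exact h3

end H56R
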