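import Pool.Agent.Lib.H56Z.X0

/-!
# H56Z, file Y: plane weights with tree demands, components and connectivity

`TD G d y`: weights `y` on `G` with the degrees `d` and `y(δ S) ≥ d(S) - 2 |S| + 2`. `td_of_limit`: from the
conclusion of `limit_c`. `count`: the number of components of `G - S`. `conn`: `G` is connected.
`count_f`: the hypothesis of the theorem of Win, Ellingham, Nam and Voss for `f = d + 1` off `v0`, `f v0 = d v0`.
-/

set_option autoImplicit false
set_option linter.unusedSectionVars false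

namespace H56Z

open Finset H98P H63F

variable {V : Type*} [Fintype V] [DecidableEq V]

structure TD (G : Finset (Sym2 V)) (d : V → ℕ) (y : Sym2 V → ℝ) : Prop where
  nonneg : ∀ e, 0 ≤ y e
  supp : ∀ e, e ∉ G → y e = 0
  loop : ∀ v, s(v, v) ∉ G
  vert : ∀ v, cutw y {v} = d v
  cut : ∀ S : Finset V, S.Nonempty → S ≠ univ → (∑ v ∈ S, (d v : ℝ)) - 2 * S.card + 2 ≤ cutw y S
  sum : ∑ v, (d v : ℝ) = 2 * (Fintype.card V : ℝ) - 2

theorem td_of_limit (hV : 2 ≤ Fintype.card V) {d : V → ℕ}
    (hs : ∑ v, d v + 2 = 2 * Fintype.card V) {G : Finset (Sym2 V)} (hl : ∀ v, s(v, v) ∉ G)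
    {x : Sym2 V → ℝ} (hx : x ∈ Sx G)
    (hc : ∀ S : Finset V, S.Nonempty → S ≠ univ → rd d S ≤ cutw x S) :
    ∃ y, TD G d y := by
  obtain ⟨h0, h1, h2⟩ := hx
  have hn : (2 : ℝ) ≤ (Fintype.card V : ℝ) := by exact_mod_cast hV
  have hN : (0 : ℝ) < (Fintype.card V : ℝ) - 1 := by linarith
  have hsr : ∑ v, (d v : ℝ) = 2 * (Fintype.card V : ℝ) - 2 := by
    have : ((∑ v, d v : ℕ) : ℝ) + 2 = 2 * (Fintype.card V : ℝ) := by exact_mod_cast hs
    push_cast at this
    linarith
  have hcw : ∀ S : Finset V, cutw (fun e => ((Fintype.card V : ℝ) - 1) * x e) S =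
      ((Fintype.card V : ℝ) - 1) * cutw x S := fun S => by
    unfold cutw
    rw [mul_sum]
    refine sum_congr rfl fun e _ => ?_
    ring
  have hcut : ∀ S : Finset V, S.Nonempty → S ≠ univ → (∑ v ∈ S, (d v : ℝ)) - 2 * S.card + 2 ≤
      cutw (fun e => ((Fintype.card V : ℝ) - 1) * x e) S := fun S hS hSu => by
    rw [hcw]
    have h3 := hc S hS hSu
    rw [rd, div_le_iff₀ hN] at h3
    linarith
  have hsing : ∀ v : V, ({v} : Finset V) ≠ univ := fun v h => by
    have h3 := congrArg card h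
    rw [card_singleton, card_univ] at h3
    omega
  have hle : ∀ v ∈ (univ : Finset V), (d v : ℝ) ≤
      cutw (fun e => ((Fintype.card V : ℝ) - 1) * x e) {v} := fun v _ => by
    have h3 := hcut {v} (singleton_nonempty v) (hsing v)
    rw [sum_singleton, card_singleton] at h3
    push_cast at h3
    linarith
  have htot : ∑ v, (d v : ℝ) = ∑ v, cutw (fun e => ((Fintype.card V : ℝ) - 1) * x e) {v} := by
    rw [sum_vert _ (fun v => by rw [h1 _ (hl v), mul_zero]), ← mul_sum, h2, hsr]
    ring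
  refine ⟨fun e => ((Fintype.card V : ℝ) - 1) * x e, fun e => mul_nonneg hN.le (h0 e), fun e he => ?_,
    hl, fun v => ?_, hcut, hsr⟩
  · show ((Fintype.card V : ℝ) - 1) * x e = 0
    rw [h1 e he, mul_zero]
  · exact ((sum_eq_sum_iff_of_le hle).1 htot v (mem_univ v)).symm

/-- The classes of `c` outside `S`. -/
def cls (S : Finset V) (c : V → V) (i : V) : Finset V :=
  (univ \ S).filter fun v => c v = i

theorem mem_cls {S : Finset V} {c : V → V} {i v : V} : v ∈ cls S c i ↔ v ∉ S ∧ c v = i := by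
  simp [cls]

theorem px_sum_in {S : Finset V} {c : V → V} {a b : V} (ha : a ∈ S) (I : Finset V) :
    ∑ i ∈ I, px s(a, b) (cls S c i) ≤ 1 := by
  have h0 : ∀ i ∈ I, i ≠ c b → px s(a, b) (cls S c i) = 0 := by
    intro i _ hi
    apply px_zero
    simp only [mem_cls]
    constructor
    · intro h; exact absurd ha h.1
    · intro h; exact absurd h.2.symm hi
  have h1 : ∀ i, px s(a, b) (cls S c i) ≤ 1 := by
    intro i
    unfold px
    split_ifs <;> norm_num
  by_cases hI : c b ∈ I
  · rw [sum_eq_single_of_mem (c b) hI h0]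
    exact h1 _
  · rw [sum_eq_zero]
    · norm_num
    · intro i hi
      exact h0 i hi (fun h => hI (h ▸ hi))

theorem key {G : Finset (Sym2 V)} {y : Sym2 V → ℝ} (h0 : ∀ e, 0 ≤ y e) (hsupp : ∀ e, e ∉ G → y e = 0)
    (hloop : ∀ v, s(v, v) ∉ G) {S : Finset V} {c : V → V}
    (hc : ∀ u, u ∉ S → ∀ v, v ∉ S → s(u, v) ∈ G → c u = c v) (I : Finset V) (e : Sym2 V) :
    ∑ i ∈ I, y e * px e (cls S c i) ≤ ∑ v ∈ S, y e * px e {v} := by
  by_cases he : e ∈ G
  · rw [← mul_sum, ← mul_sum]
    apply mul_le_mul_of_nonneg_left _ (h0 e)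
    induction e using Sym2.ind with
    | _ a b =>
      have hab : a ≠ b := by
        rintro rfl
        exact hloop a he
      have hnn : 0 ≤ ∑ v ∈ S, px s(a, b) ({v} : Finset V) := sum_nonneg (fun v _ => px_nonneg _ _)
      by_cases ha : a ∈ S
      · by_cases hb : b ∈ S
        · rw [sum_eq_zero]
          · exact hnn
          · intro i _
            apply px_zero
            simp only [mem_cls]
            constructor
            · intro h; exact absurd ha h.1
            · intro h; exact absurd hb h.1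
        · refine (px_sum_in ha I).trans ?_
          have h1 : px s(a, b) ({a} : Finset V) = 1 :=
            px_one (mem_singleton_self a) (by simpa using hab.symm)
          rw [← h1]
          exact single_le_sum (f := fun v => px s(a, b) ({v} : Finset V))
            (fun v _ => px_nonneg _ _) ha
      · by_cases hb : b ∈ S
        · rw [Sym2.eq_swap]
          refine (px_sum_in hb I).trans ?_
          have h1 : px s(b, a) ({b} : Finset V) = 1 :=
            px_one (mem_singleton_self b) (by simpa using hab)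
          rw [← h1]
          exact single_le_sum (f := fun v => px s(b, a) ({v} : Finset V))
            (fun v _ => px_nonneg _ _) hb
        · have hcc : c a = c b := hc a ha b hb he
          rw [sum_eq_zero]
          · exact hnn
          · intro i _
            apply px_zero
            simp only [mem_cls]
            constructor
            · intro h; exact ⟨hb, hcc ▸ h.2⟩
            · intro h; exact ⟨ha, hcc ▸ h.2⟩
  · simp [hsupp e he]

/-- COMPONENTS: `c(G - S) ≤ d(S) - |S| + 1`. -/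
theorem count {G : Finset (Sym2 V)} {d : V → ℕ} {y : Sym2 V → ℝ} (h : TD G d y) {S : Finset V}
    (hS : S.Nonempty) {c : V → V} (hc : ∀ u, u ∉ S → ∀ v, v ∉ S → s(u, v) ∈ G → c u = c v) :
    ((univ \ S).image c).card + S.card ≤ ∑ v ∈ S, d v + 1 := by
  have h1 : ∑ i ∈ (univ \ S).image c, cutw y (cls S c i) ≤ ∑ v ∈ S, cutw y {v} := by
    unfold cutw
    rw [sum_comm, sum_comm (s := S)]
    exact sum_le_sum (fun e _ => key h.nonneg h.supp h.loop hc _ e)
  have h2 : ∑ i ∈ (univ \ S).image c, ((∑ v ∈ cls S c i, (d v : ℝ)) - 2 * (cls S c i).card + 2) ≤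
      ∑ i ∈ (univ \ S).image c, cutw y (cls S c i) := by
    apply sum_le_sum
    intro i hi
    obtain ⟨v, hv, rfl⟩ := mem_image.1 hi
    have hvS : v ∉ S := (mem_sdiff.1 hv).2
    apply h.cut
    · exact ⟨v, mem_cls.2 ⟨hvS, rfl⟩⟩
    · intro heq
      obtain ⟨s, hs⟩ := hS
      have : s ∈ cls S c (c v) := heq ▸ mem_univ s
      exact (mem_cls.1 this).1 hs
  have h3 : ∑ v ∈ S, cutw y {v} = ∑ v ∈ S, (d v : ℝ) := sum_congr rfl fun v _ => h.vert v
  have h4 : ∑ i ∈ (univ \ S).image c, ∑ v ∈ cls S c i, (d v : ℝ) = ∑ v ∈ univ \ S, (d v : ℝ) :=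
    sum_fiberwise_of_maps_to (fun v hv => mem_image_of_mem c hv) _
  have h5 : ∑ i ∈ (univ \ S).image c, ((cls S c i).card : ℝ) = ((univ \ S).card : ℝ) := by
    have h6 : ∑ i ∈ (univ \ S).image c, ∑ v ∈ cls S c i, (1 : ℝ) = ∑ v ∈ univ \ S, (1 : ℝ) :=
      sum_fiberwise_of_maps_to (fun v hv => mem_image_of_mem c hv) _
    simpa using h6
  rw [sum_add_distrib, sum_sub_distrib, h4, ← mul_sum, h5, sum_const, nsmul_eq_mul, sum_compl',
    card_compl', h.sum] at h2
  rw [h3] at h1
  have h7 : (((univ \ S).image c).card : ℝ) + (S.card : ℝ) ≤ ∑ v ∈ S, (d v : ℝ) + 1 := by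
    linarith
  exact_mod_cast h7

/-- CONNECTED: some edge of `G` leaves `S`. -/
theorem conn {G : Finset (Sym2 V)} {d : V → ℕ} {y : Sym2 V → ℝ} (h : TD G d y) {S : Finset V}
    (hS : S.Nonempty) (hSu : S ≠ univ) : ∃ a ∈ S, ∃ b, b ∉ S ∧ s(a, b) ∈ G := by
  by_contra hno
  push Not at hno
  have hpx : ∀ e ∈ G, px e S = 0 := fun e he => by
    unfold px
    rw [if_neg]
    rintro ⟨a, ha, b, hb, rfl⟩
    exact hno a ha b hb he
  have hpx' : ∀ e ∈ G, px e (univ \ S) = 0 := fun e he => by
    unfold px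
    rw [if_neg]
    rintro ⟨a, ha, b, hb, rfl⟩
    rw [mem_sdiff] at ha hb
    rw [Sym2.eq_swap] at he
    exact hno b (by by_contra h1; exact hb ⟨mem_univ _, h1⟩) a ha.2 he
  have hz : cutw y S = 0 := sum_eq_zero fun e _ => by
    by_cases he : e ∈ G
    · rw [hpx e he, mul_zero]
    · rw [h.supp e he, zero_mul]
  have hz' : cutw y (univ \ S) = 0 := sum_eq_zero fun e _ => by
    by_cases he : e ∈ G
    · rw [hpx' e he, mul_zero]
    · rw [h.supp e he, zero_mul]
  have h1 := h.cut S hS hSu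
  have h2 := h.cut (univ \ S) (by
    rw [sdiff_nonempty]
    exact fun h3 => hSu (eq_univ_iff_forall.2 fun v => h3 (mem_univ v))) (fun h3 => by
    obtain ⟨v, hv⟩ := hS
    have h4 : v ∈ univ \ S := by rw [h3]; exact mem_univ v
    exact (mem_sdiff.1 h4).2 hv)
  rw [hz] at h1
  rw [hz', sum_compl', card_compl', h.sum] at h2
  linarith

/-- The hypothesis of the non-uniform theorem of Win. -/
theorem count_f {G : Finset (Sym2 V)} {d : V → ℕ} {y : Sym2 V → ℝ} (h : TD G d y) (v0 : V) {S : Finset V}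
    (hS : S.Nonempty) {c : V → V} (hc : ∀ u, u ∉ S → ∀ v, v ∉ S → s(u, v) ∈ G → c u = c v) :
    ((univ \ S).image c).card + 2 * S.card ≤ ∑ v ∈ S, (if v = v0 then d v else d v + 1) + 2 := by
  have h1 := count h hS hc
  have h2 : ∑ v ∈ S, d v + S.card ≤ ∑ v ∈ S, (if v = v0 then d v else d v + 1) + 1 := by
    have h3 : ∑ v ∈ S, d v + S.card = ∑ v ∈ S, (d v + 1) := by
      rw [sum_add_distrib, sum_const, smul_eq_mul, mul_one]
    rw [h3]
    by_cases hv : v0 ∈ S
    · rw [← add_sum_erase S _ hv, ← add_sum_erase S (fun v => if v = v0 then d v else d v + 1) hv]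
      rw [if_pos rfl]
      have h4 : ∑ v ∈ S.erase v0, (if v = v0 then d v else d v + 1) = ∑ v ∈ S.erase v0, (d v + 1) :=
        sum_congr rfl fun v hv' => if_neg (ne_of_mem_erase hv')
      rw [h4]
      omega
    · have h4 : ∑ v ∈ S, (if v = v0 then d v else d v + 1) = ∑ v ∈ S, (d v + 1) :=
        sum_congr rfl fun v hv' => if_neg (fun h5 : v = v0 => hv (h5 ▸ hv'))
      rw [h4]
      omega
  omega

end H56Z
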